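import Pool.Agent.Y485.HS.Stm

/-!
# Project HS, job HSS-COUNT: counting orbits modulo `p`
-/

set_option autoImplicit false

open MeasureTheory Set Metric Filter Topology

namespace Pool.Agent.Z864.HS

open Pool.Agent.Y485.HS

/-- a finite invariant set without fixed points has cardinality divisible by `p` -/
theorem dvd_card {p : ℕ} (hp : p.Prime) {n : ℕ} {K : Type} [Group K] [TopologicalSpace K]
    [IsTopologicalGroup K] [CompactSpace K] {T : K → E n → E n} (hK : ProP p K)
    (hT : LocAct n K T) (Q : Finset (E n)) (hQ : ∀ x ∈ Q, x ∈ BB n)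
    (hinv : ∀ k, ∀ x ∈ Q, T k x ∈ Q) (hm : ∀ x ∈ Q, ∃ k, T k x ≠ x) : p ∣ Q.card := by
  classical
  haveI : Fact p.Prime := ⟨hp⟩
  letI act : MulAction K {x // x ∈ Q} :=
    { smul := fun k x => ⟨T k x.1, hinv k x.1 x.2⟩
      one_smul := fun x => Subtype.ext (hT.one _ (hQ _ x.2))
      mul_smul := fun h k x => Subtype.ext (hT.mul h k _ (hQ _ x.2) (hQ _ (hinv k x.1 x.2))) }
  have hsm : ∀ (k : K) (x : {x // x ∈ Q}), (k • x).1 = T k x.1 := fun k x => rfl
  set f := MulAction.toPermHom K {x // x ∈ Q} with hf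
  have hop : IsOpen (f.ker : Set K) := by
    have e : (f.ker : Set K) = ⋂ x : {x // x ∈ Q}, {k : K | T k x.1 = x.1} := by
      ext k
      simp only [SetLike.mem_coe, MonoidHom.mem_ker, mem_iInter, mem_setOf_eq]
      constructor
      · intro h x
        have := congrArg (fun g : Equiv.Perm {x // x ∈ Q} => (g x).1) h
        exact this
      · intro h
        ext x
        have := h x
        exact congrFun (congrArg _ this) _
    rw [e]
    refine isOpen_iInter_of_finite fun x => ?_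
    have hc : IsClosed ((↑Q : Set (E n)) \ {x.1}) :=
      (Q.finite_toSet.subset diff_subset).isClosed
    have hcont : Continuous (fun k : K => T k x.1) :=
      hT.cont.comp_continuous (continuous_id.prodMk continuous_const)
        (fun k => ⟨mem_univ _, hQ _ x.2⟩)
    have e2 : {k : K | T k x.1 = x.1} = (fun k : K => T k x.1) ⁻¹' ((↑Q : Set (E n)) \ {x.1})ᶜ := by
      ext k
      simp only [mem_setOf_eq, mem_preimage, mem_compl_iff, mem_diff, Finset.mem_coe,
        mem_singleton_iff, not_and, not_not]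
      exact ⟨fun h _ => h, fun h => h (hinv k _ x.2)⟩
    rw [e2]
    exact hc.isOpen_compl.preimage hcont
  obtain ⟨j, hj⟩ := hK _ hop
  have hG : IsPGroup p f.range := by
    refine IsPGroup.of_card (n := j) ?_
    rw [← hj, Subgroup.index_ker]
  by_contra hnd
  have hnd' : ¬ p ∣ Nat.card {x // x ∈ Q} := by
    rw [Nat.card_eq_fintype_card, Fintype.card_coe]
    exact hnd
  obtain ⟨x, hx⟩ := hG.nonempty_fixed_point_of_prime_not_dvd_card {x // x ∈ Q} hnd'
  obtain ⟨k, hk⟩ := hm x.1 x.2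
  apply hk
  have h1 := hx (⟨f k, k, rfl⟩ : f.range)
  have h2 := congrArg Subtype.val h1
  exact h2

/-- job HSS-COUNT -/
theorem count : S_COUNT := by
  intro p hp n K _ _ _ _ T hK hT Γ hΓ P s hP hs hm
  classical
  have hBB : ∀ x ∈ P, x ∈ BB n := fun x hx => by
    simp only [BB, mem_closedBall, dist_zero_right]
    linarith [hP x hx]
  have h1 : ∀ k, ∀ x ∈ P, T k x ∈ P ∧ s (T k x) = s x := by
    intro k x hx
    obtain ⟨ε, hε, hε'⟩ : ∃ ε : ℝ, 0 < ε ∧ ∀ y ∈ P, dist y (T k x) < ε → y = T k x := by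
      have hc : IsClosed ((↑P : Set (E n)) \ {T k x}) :=
        (P.finite_toSet.subset diff_subset).isClosed
      have hn : ((↑P : Set (E n)) \ {T k x})ᶜ ∈ 𝓝 (T k x) :=
        hc.isOpen_compl.mem_nhds (by simp)
      obtain ⟨ε, hε, hb⟩ := Metric.mem_nhds_iff.1 hn
      refine ⟨ε, hε, fun y hy hd => ?_⟩
      by_contra hne
      exact hb (mem_ball.2 hd) ⟨hy, hne⟩
    obtain ⟨γ, hγ, hg⟩ := hΓ k ε hε
    obtain ⟨a, b⟩ := hs γ hγ x hx
    have h2 := hε' _ a (hg x (hBB x hx))
    rw [← h2]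
    exact ⟨a, b⟩
  rw [← Finset.sum_fiberwise_of_maps_to (s := P) (t := P.image s) (g := s)
    (fun x hx => Finset.mem_image_of_mem _ hx)]
  refine Finset.dvd_sum fun c _ => ?_
  have h3 : ∑ x ∈ P with s x = c, s x = ((P.filter (fun x => s x = c)).card : ℤ) * c := by
    rw [Finset.sum_congr rfl (g := fun _ => c) (fun x hx => (Finset.mem_filter.1 hx).2)]
    simp
  rw [h3]
  refine Dvd.dvd.mul_right ?_ c
  have h4 : p ∣ (P.filter (fun x => s x = c)).card := by
    refine dvd_card hp hK hT _ (fun x hx => hBB x (Finset.mem_filter.1 hx).1)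
      (fun k x hx => ?_) (fun x hx => hm x (Finset.mem_filter.1 hx).1)
    obtain ⟨hx1, hx2⟩ := Finset.mem_filter.1 hx
    exact Finset.mem_filter.2 ⟨(h1 k x hx1).1, (h1 k x hx1).2.trans hx2⟩
  exact_mod_cast h4

end Pool.Agent.Z864.HS
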